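import Mathlib

/-! # Project TQ: the incomplete gamma function (helper182) -/

set_option autoImplicit false

namespace Pool.Agent.Y182.TQ

open MeasureTheory Set Filter Topology

noncomputable section

/-- `∫_t^∞ exp(-π u) u^x du` -/
def G (x t : ℝ) : ℝ := ∫ u in Ioi t, Real.exp (-(Real.pi * u)) * u ^ x

theorem G_int0 {x : ℝ} (hx : -1 < x) :
    IntegrableOn (fun u : ℝ => Real.exp (-(Real.pi * u)) * u ^ x) (Ioi 0) := by
  have h := integrableOn_rpow_mul_exp_neg_mul_rpow (p := 1) (s := x) (b := Real.pi) hx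
    zero_lt_one Real.pi_pos
  refine h.congr_fun (fun u _ => ?_) measurableSet_Ioi
  simp only [Real.rpow_one]
  rw [mul_comm, neg_mul]

theorem G_int {x t : ℝ} (hx : -1 < x) (ht : 0 ≤ t) :
    IntegrableOn (fun u : ℝ => Real.exp (-(Real.pi * u)) * u ^ x) (Ioi t) :=
  (G_int0 hx).mono_set (Ioi_subset_Ioi ht)

theorem G_nonneg {x t : ℝ} (ht : 0 ≤ t) : 0 ≤ G x t := by
  refine setIntegral_nonneg measurableSet_Ioi fun u hu => ?_
  have : 0 < u := lt_of_le_of_lt ht hu
  positivity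

theorem G_anti {x t : ℝ} (hx : -1 < x) (ht : 0 ≤ t) : G x t ≤ G x 0 := by
  refine setIntegral_mono_set (G_int0 hx) ?_ (Ioi_subset_Ioi ht).eventuallyLE
  filter_upwards [ae_restrict_mem measurableSet_Ioi] with u hu
  have : 0 < u := hu
  positivity

theorem G_zero {x : ℝ} (hx : -1 < x) :
    G x 0 = Real.pi ^ (-(x + 1)) * Real.Gamma (x + 1) := by
  have h := Real.integral_rpow_mul_exp_neg_mul_Ioi (a := x + 1) (r := Real.pi) (by linarith)
    Real.pi_pos
  rw [one_div, Real.inv_rpow Real.pi_pos.le, ← Real.rpow_neg Real.pi_pos.le] at h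
  rw [← h]
  unfold G
  refine setIntegral_congr_fun measurableSet_Ioi fun u _ => ?_
  simp only [add_sub_cancel_right]
  ring

/-- for large `t` -/
theorem G_large {x t : ℝ} (hx : -1 < x) (hx0 : x ≤ 0) (ht : 1 ≤ t) : G x t ≤ Real.exp (-t) := by
  rw [← integral_exp_neg_Ioi t]
  refine setIntegral_mono_on (G_int hx (by linarith)) (integrableOn_exp_neg_Ioi t)
    measurableSet_Ioi fun u hu => ?_
  have h1 : 1 < u := lt_of_le_of_lt ht hu
  have h2 : u ^ x ≤ 1 := Real.rpow_le_one_of_one_le_of_nonpos h1.le hx0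
  have h3 : Real.exp (-(Real.pi * u)) ≤ Real.exp (-u) := by
    refine Real.exp_le_exp.2 ?_
    nlinarith [Real.pi_gt_three]
  calc Real.exp (-(Real.pi * u)) * u ^ x ≤ Real.exp (-u) * 1 :=
        mul_le_mul h3 h2 (by positivity) (Real.exp_pos _).le
    _ = _ := mul_one _

/-- the missing part -/
theorem G_diff {x t : ℝ} (hx : -(3 / 4) ≤ x) (ht : 0 ≤ t) :
    G x 0 - G x t ≤ 4 * t ^ (x + 1) := by
  have hx1 : -1 < x := by linarith
  have h1 : G x 0 = (∫ u in Ioc 0 t, Real.exp (-(Real.pi * u)) * u ^ x) + G x t := by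
    unfold G
    rw [← setIntegral_union (Ioc_disjoint_Ioi le_rfl) measurableSet_Ioi
      ((G_int0 hx1).mono_set Ioc_subset_Ioi_self) (G_int hx1 ht), Ioc_union_Ioi_eq_Ioi ht]
  have h2 : ∫ u in Ioc 0 t, Real.exp (-(Real.pi * u)) * u ^ x ≤ ∫ u in Ioc 0 t, u ^ x := by
    refine setIntegral_mono_on ((G_int0 hx1).mono_set Ioc_subset_Ioi_self) ?_
      measurableSet_Ioc fun u hu => ?_
    · rw [← intervalIntegrable_iff_integrableOn_Ioc_of_le ht]
      exact intervalIntegral.intervalIntegrable_rpow' hx1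
    · have hu0 : 0 < u := hu.1
      have h3 : Real.exp (-(Real.pi * u)) ≤ 1 := by
        rw [Real.exp_le_one_iff]
        have := Real.pi_pos
        nlinarith [mul_pos Real.pi_pos hu0]
      calc Real.exp (-(Real.pi * u)) * u ^ x ≤ 1 * u ^ x :=
            mul_le_mul_of_nonneg_right h3 (by positivity)
        _ = _ := one_mul _
  have h3 : ∫ u in Ioc 0 t, u ^ x = t ^ (x + 1) / (x + 1) := by
    rw [← intervalIntegral.integral_of_le ht, integral_rpow (Or.inl hx1),
      Real.zero_rpow (by linarith), sub_zero]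
  have h4 : t ^ (x + 1) / (x + 1) ≤ 4 * t ^ (x + 1) := by
    rw [div_le_iff₀ (by linarith)]
    have : 0 ≤ t ^ (x + 1) := by positivity
    nlinarith
  rw [h1, add_sub_cancel_right]
  linarith

theorem G_zero_le {x : ℝ} (hx : -(3 / 4) ≤ x) (hx0 : x ≤ 0) : G x 0 ≤ 5 := by
  have h1 := G_diff (x := x) hx (t := 1) zero_le_one
  have h2 := G_large (x := x) (by linarith) hx0 (t := 1) le_rfl
  rw [Real.one_rpow] at h1
  have h3 : Real.exp (-1) ≤ 1 := by
    rw [Real.exp_le_one_iff]; norm_num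
  linarith

/-- scaling -/
theorem G_scale {x c w : ℝ} (hc : 0 < c) (hw : 0 < w) :
    ∫ v in Ioi w, Real.exp (-(Real.pi * c * v)) * v ^ x = c ^ (-(x + 1)) * G x (c * w) := by
  have h := integral_comp_mul_left_Ioi (fun u : ℝ => Real.exp (-(Real.pi * u)) * u ^ x) w hc
  have h2 : ∫ v in Ioi w, Real.exp (-(Real.pi * (c * v))) * (c * v) ^ x =
      c ^ x * ∫ v in Ioi w, Real.exp (-(Real.pi * c * v)) * v ^ x := by
    rw [← integral_const_mul]
    refine setIntegral_congr_fun measurableSet_Ioi fun v hv => ?_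
    have hv0 : 0 < v := lt_trans hw hv
    rw [Real.mul_rpow hc.le hv0.le, mul_assoc Real.pi c v]
    ring
  rw [h2] at h
  have h3 : c ^ (-(x + 1)) = c⁻¹ * (c ^ x)⁻¹ := by
    rw [← Real.rpow_neg hc.le, ← Real.rpow_neg_one, ← Real.rpow_add hc]
    congr 1
    ring
  have h4 : (c ^ x) ≠ 0 := (Real.rpow_pos_of_pos hc x).ne'
  rw [h3]
  unfold G
  rw [smul_eq_mul] at h
  rw [show (∫ v in Ioi w, Real.exp (-(Real.pi * c * v)) * v ^ x) =
    (c ^ x)⁻¹ * (c ^ x * ∫ v in Ioi w, Real.exp (-(Real.pi * c * v)) * v ^ x) by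
      rw [← mul_assoc, inv_mul_cancel₀ h4, one_mul], h]
  ring

theorem scale_int {x c w : ℝ} (hx : -1 < x) (hc : 0 < c) (hw : 0 < w) :
    IntegrableOn (fun v : ℝ => Real.exp (-(Real.pi * c * v)) * v ^ x) (Ioi w) := by
  have h := integrableOn_rpow_mul_exp_neg_mul_rpow (p := 1) (s := x) (b := Real.pi * c) hx
    zero_lt_one (by have := Real.pi_pos; positivity)
  refine (h.mono_set (Ioi_subset_Ioi hw.le)).congr_fun (fun u _ => ?_) measurableSet_Ioi
  simp only [Real.rpow_one]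
  rw [mul_comm, neg_mul]

end

end Pool.Agent.Y182.TQ
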