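import Mathlib
import Pool.Agent.Y122.TQ.Defs
import Pool.Agent.Y182.TQ.BigG

/-! # Project TQ: the long integral against the sharply cut polynomial (helper182) -/

set_option autoImplicit false

namespace Pool.Agent.Y182.TQ

open Finset Filter Topology MeasureTheory
open Pool.Agent.H306R2 (dv dA dv_one dA_one)
open Pool.Agent.H306R2.RZ (js nu gm)
open Pool.Agent.H306R2.RG
open Pool.Agent.Y122.TQ

theorem jo_abs' (φ : FD) (d n : ℕ) : |jo φ d n| ≤ 1 := by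
  unfold jo
  split_ifs
  · unfold js
    rcases jacobiSym.trichotomy (φ.e * (d : ℤ)) n with h | h | h <;> simp [h]
  · simp

/-- the coefficients -/
noncomputable def cc (φ : FD) (d : ℕ) (δ : ℝ) (n : ℕ) : ℝ := jo φ d n * (n : ℝ) ^ (-(1 / 2 + δ))

theorem cc_abs (φ : FD) (d : ℕ) {δ : ℝ} (hδ : 0 < δ) {n : ℕ} (hn : 1 ≤ n) : |cc φ d δ n| ≤ 1 := by
  unfold cc
  rw [abs_mul, abs_of_nonneg (by positivity : (0 : ℝ) ≤ (n : ℝ) ^ (-(1 / 2 + δ)))]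
  have h1 : (n : ℝ) ^ (-(1 / 2 + δ)) ≤ 1 :=
    Real.rpow_le_one_of_one_le_of_nonpos (by exact_mod_cast hn) (by linarith)
  exact mul_le_one₀ (jo_abs' φ d n) (by positivity) h1

theorem fam_a {φ : FD} (h : Fam φ) : φ.a ≤ 1 := by
  obtain ⟨ε, -, h | h | h | h⟩ := h <;> subst h
  · simp only [F8]; split_ifs <;> omega
  · simp only [F4]; split_ifs <;> omega
  · simp only [F1]; split_ifs <;> omega
  · simp only [F1]; split_ifs <;> omega

theorem xe_low (φ : FD) {δ : ℝ} (hδ : 0 < δ) : -(3 / 4) ≤ xe φ δ := by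
  unfold xe
  have : (0 : ℝ) ≤ φ.a := Nat.cast_nonneg _
  linarith

theorem xe_high {φ : FD} (h : Fam φ) {δ : ℝ} (hδ : δ ≤ 1 / 4) : xe φ δ ≤ 0 := by
  unfold xe
  have : (φ.a : ℝ) ≤ 1 := by exact_mod_cast fam_a h
  linarith

theorem gm_eq (φ : FD) {δ : ℝ} (hδ : 0 < δ) : gm (1 / 2 + δ + φ.a) = G (xe φ δ) 0 := by
  rw [G_zero (by have := xe_low φ hδ; linarith)]
  have e : xe φ δ + 1 = (1 / 2 + δ + φ.a) / 2 := by unfold xe; ring
  rw [e]
  rfl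

/-- one term of the integral -/
theorem term_int (φ : FD) (d : ℕ) {δ w : ℝ} (hw : 0 < w) (n : ℕ) :
    ∫ v in Set.Ioi w, (jo φ d (n + 1) * ((n : ℝ) + 1) ^ φ.a *
      Real.exp (-(Real.pi * ((n : ℝ) + 1) ^ 2 * v))) * v ^ (xe φ δ) =
    cc φ d δ (n + 1) * G (xe φ δ) (((n : ℝ) + 1) ^ 2 * w) := by
  have hn : (0 : ℝ) < (n : ℝ) + 1 := by positivity
  have h1 := G_scale (x := xe φ δ) (c := ((n : ℝ) + 1) ^ 2) (w := w) (by positivity) hw
  have h2 : ∫ v in Set.Ioi w, (jo φ d (n + 1) * ((n : ℝ) + 1) ^ φ.a *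
      Real.exp (-(Real.pi * ((n : ℝ) + 1) ^ 2 * v))) * v ^ (xe φ δ) =
      (jo φ d (n + 1) * ((n : ℝ) + 1) ^ φ.a) *
        ∫ v in Set.Ioi w, Real.exp (-(Real.pi * ((n : ℝ) + 1) ^ 2 * v)) * v ^ (xe φ δ) := by
    rw [← integral_const_mul]
    refine integral_congr_ae (Eventually.of_forall fun v => ?_)
    simp only
    ring
  rw [h2, h1]
  unfold cc
  have h3 : (((n : ℝ) + 1) ^ 2) ^ (-(xe φ δ + 1)) =
      ((n : ℝ) + 1) ^ (-(1 / 2 + δ)) * (((n : ℝ) + 1) ^ φ.a)⁻¹ := by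
    rw [← Real.rpow_natCast ((n : ℝ) + 1) φ.a, ← Real.rpow_neg hn.le, ← Real.rpow_add hn,
      ← Real.rpow_natCast ((n : ℝ) + 1) 2, ← Real.rpow_mul hn.le]
    congr 1
    unfold xe
    push_cast
    ring
  have h4 : ((n : ℝ) + 1) ^ φ.a ≠ 0 := by positivity
  rw [h3]
  push_cast
  field_simp

theorem big_arg {N n : ℕ} (hN : 1 ≤ N) (hn : N ^ 8 ≤ n) :
    ((n : ℝ) + 1) ≤ ((n : ℝ) + 1) ^ 2 * (1 / (N : ℝ) ^ 8) := by
  have h1 : ((N : ℝ)) ^ 8 ≤ (n : ℝ) := by exact_mod_cast hn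
  have h0 : (0 : ℝ) < (N : ℝ) ^ 8 := by
    have : (0 : ℝ) < N := by exact_mod_cast hN
    positivity
  rw [mul_one_div, le_div_iff₀ h0]
  nlinarith

theorem geo (M : ℕ) : Summable (fun n : ℕ => Real.exp (-((n + M : ℕ) + 1 : ℝ))) ∧
    ∑' n : ℕ, Real.exp (-((n + M : ℕ) + 1 : ℝ)) ≤ Real.exp (-(M : ℝ)) := by
  have hr0 : 0 ≤ Real.exp (-1) := (Real.exp_pos _).le
  have hr1 : Real.exp (-1) ≤ 1 / 2 := by
    rw [Real.exp_neg, ← one_div]
    refine one_div_le_one_div_of_le (by norm_num) ?_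
    have := Real.add_one_le_exp (1 : ℝ)
    linarith
  have hf : (fun n : ℕ => Real.exp (-((n + M : ℕ) + 1 : ℝ))) =
      fun n : ℕ => (Real.exp (-(M : ℝ)) * Real.exp (-1)) * Real.exp (-1) ^ n := by
    funext n
    rw [← Real.exp_nat_mul, ← Real.exp_add, ← Real.exp_add]
    congr 1
    push_cast
    ring
  have hs := (hasSum_geometric_of_lt_one hr0 (by linarith)).mul_left
    (Real.exp (-(M : ℝ)) * Real.exp (-1))
  rw [← hf] at hs
  refine ⟨hs.summable, ?_⟩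
  rw [hs.tsum_eq]
  have h1 : Real.exp (-1) * (1 - Real.exp (-1))⁻¹ ≤ 1 := by
    rw [← div_eq_mul_inv, div_le_one (by linarith)]
    linarith
  calc Real.exp (-(M : ℝ)) * Real.exp (-1) * (1 - Real.exp (-1))⁻¹
      = Real.exp (-(M : ℝ)) * (Real.exp (-1) * (1 - Real.exp (-1))⁻¹) := by ring
    _ ≤ Real.exp (-(M : ℝ)) * 1 := mul_le_mul_of_nonneg_left h1 (Real.exp_pos _).le
    _ = _ := mul_one _

/-- the terms beyond `N ^ 8` -/
theorem tail_term {φ : FD} (hφ : Fam φ) (d : ℕ) {δ : ℝ} (hδ : 0 < δ) (hδ4 : δ ≤ 1 / 4) {N : ℕ}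
    (hN : 1 ≤ N) (n : ℕ) :
    ‖cc φ d δ (n + N ^ 8 + 1) * G (xe φ δ) (((n + N ^ 8 : ℕ) + 1 : ℝ) ^ 2 * (1 / (N : ℝ) ^ 8))‖ ≤
      Real.exp (-((n + N ^ 8 : ℕ) + 1 : ℝ)) := by
  have h1 := big_arg hN (n := n + N ^ 8) (by omega)
  have h2 : (1 : ℝ) ≤ ((n + N ^ 8 : ℕ) : ℝ) + 1 := by
    have : (0 : ℝ) ≤ ((n + N ^ 8 : ℕ) : ℝ) := Nat.cast_nonneg _
    linarith
  have h3 := G_large (x := xe φ δ) (by have := xe_low φ hδ; linarith) (xe_high hφ hδ4)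
    (h2.trans h1)
  rw [norm_mul, Real.norm_eq_abs, Real.norm_eq_abs,
    abs_of_nonneg (G_nonneg (x := xe φ δ) (by linarith [h2.trans h1]))]
  calc |cc φ d δ (n + N ^ 8 + 1)| *
        G (xe φ δ) (((n + N ^ 8 : ℕ) + 1 : ℝ) ^ 2 * (1 / (N : ℝ) ^ 8))
      ≤ 1 * Real.exp (-(((n + N ^ 8 : ℕ) + 1 : ℝ) ^ 2 * (1 / (N : ℝ) ^ 8))) :=
        mul_le_mul (cc_abs φ d hδ (by omega)) h3 (G_nonneg (by linarith [h2.trans h1]))
          zero_le_one
    _ ≤ _ := by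
        rw [one_mul]
        exact Real.exp_le_exp.2 (by linarith)

theorem int_sum {φ : FD} (hφ : Fam φ) (d : ℕ) {δ : ℝ} (hδ : 0 < δ) (hδ4 : δ ≤ 1 / 4) {N : ℕ}
    (hN : 1 ≤ N) :
    Summable (fun n : ℕ => cc φ d δ (n + 1) *
      G (xe φ δ) (((n : ℝ) + 1) ^ 2 * (1 / (N : ℝ) ^ 8))) ∧
    (∫ v in Set.Ioi (1 / (N : ℝ) ^ 8), vto φ d v * v ^ (xe φ δ)) =
      ∑' n : ℕ, cc φ d δ (n + 1) * G (xe φ δ) (((n : ℝ) + 1) ^ 2 * (1 / (N : ℝ) ^ 8)) := by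
  have hx : -1 < xe φ δ := by have := xe_low φ hδ; linarith
  have hN0 : (0 : ℝ) < N := by exact_mod_cast hN
  set w : ℝ := 1 / (N : ℝ) ^ 8 with hw
  have hw0 : 0 < w := by positivity
  set F : ℕ → ℝ → ℝ := fun n v => (jo φ d (n + 1) * ((n : ℝ) + 1) ^ φ.a *
      Real.exp (-(Real.pi * ((n : ℝ) + 1) ^ 2 * v))) * v ^ (xe φ δ) with hF
  have hFi : ∀ n, IntegrableOn (F n) (Set.Ioi w) := by
    intro n
    have h := (scale_int (x := xe φ δ) (c := ((n : ℝ) + 1) ^ 2) hx (by positivity) hw0).const_mul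
      (jo φ d (n + 1) * ((n : ℝ) + 1) ^ φ.a)
    refine h.congr (Eventually.of_forall fun v => ?_)
    simp only [hF]
    ring
  have hFn : ∀ n, ∫ v in Set.Ioi w, ‖F n v‖ =
      |cc φ d δ (n + 1)| * G (xe φ δ) (((n : ℝ) + 1) ^ 2 * w) := by
    intro n
    have h1 : ∫ v in Set.Ioi w, ‖F n v‖ = |jo φ d (n + 1)| * (((n : ℝ) + 1) ^ φ.a *
        ∫ v in Set.Ioi w, Real.exp (-(Real.pi * ((n : ℝ) + 1) ^ 2 * v)) * v ^ (xe φ δ)) := by
      rw [← integral_const_mul, ← integral_const_mul]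
      refine setIntegral_congr_fun measurableSet_Ioi fun v hv => ?_
      have hv0 : (0 : ℝ) < v := lt_trans hw0 hv
      simp only [hF, norm_mul, Real.norm_eq_abs]
      rw [abs_of_nonneg (by positivity : (0 : ℝ) ≤ ((n : ℝ) + 1) ^ φ.a),
        abs_of_nonneg (Real.exp_pos _).le, abs_of_nonneg (by positivity : (0 : ℝ) ≤ v ^ (xe φ δ))]
      ring
    have hn : (0 : ℝ) < (n : ℝ) + 1 := by positivity
    rw [h1, G_scale (by positivity) hw0]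
    unfold cc
    rw [abs_mul, abs_of_nonneg (by positivity : (0 : ℝ) ≤ ((n + 1 : ℕ) : ℝ) ^ (-(1 / 2 + δ)))]
    have h3 : (((n : ℝ) + 1) ^ 2) ^ (-(xe φ δ + 1)) =
        ((n : ℝ) + 1) ^ (-(1 / 2 + δ)) * (((n : ℝ) + 1) ^ φ.a)⁻¹ := by
      rw [← Real.rpow_natCast ((n : ℝ) + 1) φ.a, ← Real.rpow_neg hn.le, ← Real.rpow_add hn,
        ← Real.rpow_natCast ((n : ℝ) + 1) 2, ← Real.rpow_mul hn.le]
      congr 1
      unfold xe
      push_cast
      ring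
    have h4 : ((n : ℝ) + 1) ^ φ.a ≠ 0 := by positivity
    rw [h3]
    push_cast
    field_simp
  have hsum0 : Summable (fun n : ℕ => |cc φ d δ (n + 1)| *
      G (xe φ δ) (((n : ℝ) + 1) ^ 2 * w)) := by
    rw [← summable_nat_add_iff (N ^ 8)]
    refine Summable.of_norm_bounded (geo (N ^ 8)).1 fun n => ?_
    have := tail_term hφ d hδ hδ4 hN n
    rw [norm_mul, norm_abs_eq_norm, ← norm_mul]
    exact this
  have hsn : Summable fun n => ∫ v in Set.Ioi w, ‖F n v‖ := by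
    simp_rw [hFn]
    exact hsum0
  have hH := hasSum_integral_of_summable_integral_norm hFi hsn
  have hterm : ∀ n, ∫ v in Set.Ioi w, F n v =
      cc φ d δ (n + 1) * G (xe φ δ) (((n : ℝ) + 1) ^ 2 * w) := fun n => term_int φ d hw0 n
  simp_rw [hterm] at hH
  refine ⟨hH.summable, ?_⟩
  rw [hH.tsum_eq]
  refine integral_congr_ae (Eventually.of_forall fun v => ?_)
  simp only [hF]
  rw [tsum_mul_right]
  rfl

/-- decomposition of the difference -/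
theorem decomp {φ : FD} (hφ : Fam φ) (d : ℕ) {δ : ℝ} (hδ : 0 < δ) (hδ4 : δ ≤ 1 / 4) {N : ℕ}
    (hN : 1 ≤ N) (g1 g2 : ℕ → ℝ)
    (hg1 : ∀ n, 1 ≤ n → n ≤ N →
      g1 n = (G (xe φ δ) 0 - G (xe φ δ) ((n : ℝ) ^ 2 * (1 / (N : ℝ) ^ 8))) * N / 4)
    (hg2 : ∀ n, N < n → g2 n = G (xe φ δ) ((n : ℝ) ^ 2 * (1 / (N : ℝ) ^ 8)) / 5)
    (hg2' : ∀ n, n ≤ N → g2 n = 0) :
    ∃ T : ℝ, |T| ≤ Real.exp (-((N ^ 8 : ℕ) : ℝ)) ∧
    (∫ v in Set.Ioi (1 / (N : ℝ) ^ 8), vto φ d v * v ^ (xe φ δ)) -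
          gm (1 / 2 + δ + φ.a) * Qo φ (fun _ => 1) N δ d =
      5 * Qo φ g2 (N ^ 8) δ d - 4 / N * Qo φ g1 N δ d + T := by
  obtain ⟨hs, hI⟩ := int_sum hφ d hδ hδ4 hN
  have hN0 : (0 : ℝ) < N := by exact_mod_cast hN
  have hNM : N ≤ N ^ 8 := Nat.le_self_pow (by norm_num) N
  refine ⟨∑' n : ℕ, cc φ d δ (n + N ^ 8 + 1) *
    G (xe φ δ) (((n + N ^ 8 : ℕ) + 1 : ℝ) ^ 2 * (1 / (N : ℝ) ^ 8)), ?_, ?_⟩
  · rw [← Real.norm_eq_abs]
    refine (tsum_of_norm_bounded (geo (N ^ 8)).1.hasSum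
      fun n => tail_term hφ d hδ hδ4 hN n).trans (geo (N ^ 8)).2
  · rw [hI, ← hs.sum_add_tsum_nat_add (N ^ 8), gm_eq φ hδ]
    have e1 : ∑ n ∈ range (N ^ 8), cc φ d δ (n + 1) *
        G (xe φ δ) (((n : ℝ) + 1) ^ 2 * (1 / (N : ℝ) ^ 8)) =
        ∑ n ∈ Icc 1 (N ^ 8), cc φ d δ n * G (xe φ δ) ((n : ℝ) ^ 2 * (1 / (N : ℝ) ^ 8)) := by
      have h1 := Finset.sum_Ico_add' (fun n : ℕ => cc φ d δ n *
        G (xe φ δ) ((n : ℝ) ^ 2 * (1 / (N : ℝ) ^ 8))) 0 (N ^ 8) 1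
      rw [← Finset.range_eq_Ico, zero_add] at h1
      have h2 : Finset.Ico 1 (N ^ 8 + 1) = Icc 1 (N ^ 8) := by
        ext n
        simp only [mem_Ico, mem_Icc]
        omega
      rw [h2] at h1
      rw [← h1]
      refine sum_congr rfl fun n _ => ?_
      push_cast
      rfl
    have e2 : ∑ n ∈ Icc 1 (N ^ 8), cc φ d δ n * G (xe φ δ) ((n : ℝ) ^ 2 * (1 / (N : ℝ) ^ 8)) =
        5 * Qo φ g2 (N ^ 8) δ d +
          ∑ n ∈ Icc 1 N, cc φ d δ n * G (xe φ δ) ((n : ℝ) ^ 2 * (1 / (N : ℝ) ^ 8)) := by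
      have e3 : ∑ n ∈ Icc 1 N, cc φ d δ n * G (xe φ δ) ((n : ℝ) ^ 2 * (1 / (N : ℝ) ^ 8)) =
          ∑ n ∈ Icc 1 (N ^ 8), if n ≤ N then
            cc φ d δ n * G (xe φ δ) ((n : ℝ) ^ 2 * (1 / (N : ℝ) ^ 8)) else 0 := by
        rw [← sum_filter]
        refine sum_congr ?_ fun _ _ => rfl
        ext n
        simp only [mem_filter, mem_Icc]
        omega
      rw [e3]
      unfold Qo
      rw [mul_sum, ← sum_add_distrib]
      refine sum_congr rfl fun n _ => ?_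
      unfold cc
      split_ifs with h
      · rw [hg2' n h]
        ring
      · rw [hg2 n (by omega)]
        ring
    have e4 : ∑ n ∈ Icc 1 N, cc φ d δ n * G (xe φ δ) ((n : ℝ) ^ 2 * (1 / (N : ℝ) ^ 8)) -
        G (xe φ δ) 0 * Qo φ (fun _ => 1) N δ d = -(4 / N * Qo φ g1 N δ d) := by
      unfold Qo
      rw [mul_sum, mul_sum, ← sum_neg_distrib, ← sum_sub_distrib]
      refine sum_congr rfl fun n hn => ?_
      rw [mem_Icc] at hn
      unfold cc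
      rw [hg1 n hn.1 hn.2]
      field_simp
      ring
    rw [e1, e2]
    push_cast at e4 ⊢
    linarith [e4]

theorem BIG (h : S_MSP) : S_BIG := by
  intro φ hφ
  obtain ⟨C, E, hC, hM⟩ := h φ hφ 1
  refine ⟨126 * C, 8 * E + 1, by linarith, fun N Y hN hY δ hδ hδ4 => ?_⟩
  have hN0 : (0 : ℝ) < N := by exact_mod_cast hN
  have hN1 : (1 : ℝ) ≤ N := by exact_mod_cast hN
  have hY0 : (0 : ℝ) < Y := by exact_mod_cast hY
  set x := xe φ δ with hx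
  have hxl : -(3 / 4) ≤ x := xe_low φ hδ
  have hxh : x ≤ 0 := xe_high hφ hδ4
  have hx1 : -1 < x := by linarith
  set w : ℝ := 1 / (N : ℝ) ^ 8 with hw
  have hw0 : 0 < w := by positivity
  set g1 : ℕ → ℝ := fun n => if 1 ≤ n ∧ n ≤ N then
    (G x 0 - G x ((n : ℝ) ^ 2 * w)) * N / 4 else 0 with hg1
  set g2 : ℕ → ℝ := fun n => if N < n then G x ((n : ℝ) ^ 2 * w) / 5 else 0 with hg2
  have hdv1 : ∀ n : ℕ, 1 ≤ n → dv ((1 : ℕ) : ℝ) n = 1 := by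
    intro n hn
    have h1 : dA 1 n = 1 := by
      rw [dA_one]
      simp only [Pool.Agent.H306R2.zR, ArithmeticFunction.natCoe_apply,
        ArithmeticFunction.zeta_apply]
      rw [if_neg (by omega)]
      simp
    rw [Nat.cast_one]
    exact h1
  have hdv0 : ∀ n : ℕ, 0 ≤ dv ((1 : ℕ) : ℝ) n := fun n =>
    Pool.Agent.H306R2.dv_nonneg (Nat.cast_nonneg _) n
  have hG5 : ∀ t : ℝ, 0 ≤ t → G x t ≤ 5 := fun t ht => (G_anti hx1 ht).trans (G_zero_le hxl hxh)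
  have hb1 : ∀ n, |g1 n| ≤ dv ((1 : ℕ) : ℝ) n := by
    intro n
    simp only [hg1]
    split_ifs with hn
    · rw [hdv1 n hn.1]
      have ht0 : (0 : ℝ) ≤ (n : ℝ) ^ 2 * w := by positivity
      have h1 := G_anti (x := x) hx1 ht0
      have h2 := G_diff (x := x) hxl ht0
      have h3 : (n : ℝ) ^ 2 * w ≤ ((N : ℝ) ^ 6)⁻¹ := by
        have h4 : (n : ℝ) ≤ N := by exact_mod_cast hn.2
        have h5 : (n : ℝ) ^ 2 ≤ (N : ℝ) ^ 2 := pow_le_pow_left₀ (Nat.cast_nonneg _) h4 2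
        calc (n : ℝ) ^ 2 * w ≤ (N : ℝ) ^ 2 * w := mul_le_mul_of_nonneg_right h5 hw0.le
          _ = ((N : ℝ) ^ 6)⁻¹ := by
            rw [hw]
            field_simp
      have h6 : ((n : ℝ) ^ 2 * w) ^ (x + 1) ≤ (N : ℝ)⁻¹ := by
        have hx14 : (1 : ℝ) / 4 ≤ x + 1 := by linarith
        have h7 : ((n : ℝ) ^ 2 * w) ^ (x + 1) ≤ (((N : ℝ) ^ 6)⁻¹) ^ (x + 1) :=
          Real.rpow_le_rpow ht0 h3 (by linarith)
        refine h7.trans ?_
        have h8 : (((N : ℝ) ^ 6)⁻¹) ^ (x + 1) = (N : ℝ) ^ (-(6 * (x + 1))) := by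
          rw [← Real.rpow_natCast (N : ℝ) 6, ← Real.rpow_neg hN0.le, ← Real.rpow_mul hN0.le]
          congr 1
          push_cast
          ring
        rw [h8, ← Real.rpow_neg_one]
        exact Real.rpow_le_rpow_of_exponent_le hN1 (by linarith)
      rw [abs_of_nonneg (by
        have : 0 ≤ G x 0 - G x ((n : ℝ) ^ 2 * w) := by linarith
        positivity)]
      have h9 : G x 0 - G x ((n : ℝ) ^ 2 * w) ≤ 4 * (N : ℝ)⁻¹ := by linarith
      calc (G x 0 - G x ((n : ℝ) ^ 2 * w)) * N / 4 ≤ (4 * (N : ℝ)⁻¹) * N / 4 := by gcongr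
        _ = 1 := by field_simp
    · rw [abs_zero]
      exact hdv0 n
  have hb2 : ∀ n, |g2 n| ≤ dv ((1 : ℕ) : ℝ) n := by
    intro n
    simp only [hg2]
    split_ifs with hn
    · rw [hdv1 n (by omega)]
      have ht0 : (0 : ℝ) ≤ (n : ℝ) ^ 2 * w := by positivity
      have h1 := G_nonneg (x := x) ht0
      rw [abs_of_nonneg (by positivity)]
      have := hG5 _ ht0
      linarith
    · rw [abs_zero]
      exact hdv0 n
  have hms1 := hM g1 hb1 1 N Y le_rfl hN hY (fun n hn => by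
    simp only [hg1]
    rw [if_neg (by omega)]) δ hδ (by linarith)
  have hms2 := hM g2 hb2 (N + 1) (N ^ 8) Y (by omega) (Nat.one_le_pow _ _ hN) hY (fun n hn => by
    simp only [hg2]
    rw [if_neg (by omega)]) δ hδ (by linarith)
  rw [Nat.cast_one, Real.one_rpow, one_mul] at hms1
  set P : ℝ := (C / δ) ^ E with hP
  have hCδ : 1 ≤ C / δ := by
    rw [le_div_iff₀ hδ]
    linarith
  have hP1 : 1 ≤ P := one_le_pow₀ hCδ
  set V : ℝ := (Y : ℝ) ^ (3 / 4 : ℝ) with hV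
  have hV0 : 0 ≤ V := by positivity
  set D : ℝ := (N : ℝ) ^ (-δ) with hD
  have hD0 : 0 ≤ D := by positivity
  have hND : 1 / (N : ℝ) ^ 2 ≤ D := by
    rw [hD, one_div, ← Real.rpow_natCast (N : ℝ) 2, ← Real.rpow_neg hN0.le]
    refine Real.rpow_le_rpow_of_exponent_le hN1 ?_
    push_cast
    linarith
  have hD2 : ((N + 1 : ℕ) : ℝ) ^ (-δ) ≤ D := by
    refine Real.rpow_le_rpow_of_nonpos hN0 ?_ (by linarith)
    push_cast
    linarith
  have hexp : Real.exp (-((N ^ 8 : ℕ) : ℝ)) ^ 2 ≤ D := by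
    refine le_trans ?_ hND
    have h1 : Real.exp (-((N ^ 8 : ℕ) : ℝ)) ≤ 1 / N := by
      rw [Real.exp_neg, ← one_div]
      refine one_div_le_one_div_of_le hN0 ?_
      have h2 := Real.add_one_le_exp ((N ^ 8 : ℕ) : ℝ)
      have h3 : (N : ℝ) ≤ ((N ^ 8 : ℕ) : ℝ) := by
        exact_mod_cast Nat.le_self_pow (by norm_num) N
      linarith
    calc Real.exp (-((N ^ 8 : ℕ) : ℝ)) ^ 2 ≤ (1 / (N : ℝ)) ^ 2 :=
          pow_le_pow_left₀ (Real.exp_pos _).le h1 2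
      _ = 1 / (N : ℝ) ^ 2 := by rw [div_pow, one_pow]
  -- pointwise
  have hpt : ∀ d ∈ Om φ Y, ((∫ v in Set.Ioi w, vto φ d v * v ^ x) -
      gm (1 / 2 + δ + φ.a) * Qo φ (fun _ => 1) N δ d) ^ 2 ≤
      75 * Qo φ g2 (N ^ 8) δ d ^ 2 + 48 * (1 / (N : ℝ) ^ 2) * Qo φ g1 N δ d ^ 2 + 3 * D := by
    intro d _
    obtain ⟨T, hT, hdec⟩ := decomp hφ d hδ hδ4 hN g1 g2
      (fun n h1 h2 => by simp only [hg1]; rw [if_pos ⟨h1, h2⟩])
      (fun n h1 => by simp only [hg2]; rw [if_pos h1])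
      (fun n h1 => by simp only [hg2]; rw [if_neg (by omega)])
    rw [hdec]
    have hT2 : T ^ 2 ≤ D := by
      refine le_trans ?_ hexp
      rw [← sq_abs]
      exact pow_le_pow_left₀ (abs_nonneg _) hT 2
    have h1 : (4 / (N : ℝ) * Qo φ g1 N δ d) ^ 2 = 16 * (1 / (N : ℝ) ^ 2) * Qo φ g1 N δ d ^ 2 := by
      field_simp
      ring
    set a := Qo φ g2 (N ^ 8) δ d
    set b := 4 / (N : ℝ) * Qo φ g1 N δ d
    nlinarith [sq_nonneg (5 * a + b), sq_nonneg (5 * a - T), sq_nonneg (b + T)]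
  refine (Finset.sum_le_sum hpt).trans ?_
  rw [sum_add_distrib, sum_add_distrib, ← mul_sum, ← mul_sum, sum_const, nsmul_eq_mul]
  have hcard : ((Om φ Y).card : ℝ) ≤ Y := by
    have h1 : (Om φ Y).card ≤ Y := by
      classical
      unfold Om
      refine (card_filter_le _ _).trans ?_
      simp
    exact_mod_cast h1
  have hN8 : (((N ^ 8 : ℕ) : ℝ)) ^ E = (N : ℝ) ^ (8 * E) := by
    push_cast
    rw [← pow_mul]
  rw [hN8] at hms2
  have hNE : (N : ℝ) ^ E ≤ (N : ℝ) ^ (8 * E) := pow_le_pow_right₀ hN1 (by omega)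
  have hNE2 : (N : ℝ) ^ (8 * E) ≤ (N : ℝ) ^ (8 * E + 1) := pow_le_pow_right₀ hN1 (by omega)
  have hA : ∑ d ∈ Om φ Y, Qo φ g2 (N ^ 8) δ d ^ 2 ≤ Y * (D * P) + C * V * (N : ℝ) ^ (8 * E + 1) := by
    refine hms2.trans (add_le_add ?_ ?_)
    · gcongr
    · gcongr
  have hN2 : 1 / (N : ℝ) ^ 2 ≤ 1 := by
    rw [div_le_one (by positivity)]
    exact one_le_pow₀ hN1
  have hB : 1 / (N : ℝ) ^ 2 * ∑ d ∈ Om φ Y, Qo φ g1 N δ d ^ 2 ≤
      Y * (D * P) + C * V * (N : ℝ) ^ (8 * E + 1) := by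
    calc 1 / (N : ℝ) ^ 2 * ∑ d ∈ Om φ Y, Qo φ g1 N δ d ^ 2
        ≤ 1 / (N : ℝ) ^ 2 * (Y * P + C * V * (N : ℝ) ^ E) :=
          mul_le_mul_of_nonneg_left hms1 (by positivity)
      _ = Y * (1 / (N : ℝ) ^ 2 * P) + 1 / (N : ℝ) ^ 2 * (C * V * (N : ℝ) ^ E) := by ring
      _ ≤ Y * (D * P) + 1 * (C * V * (N : ℝ) ^ (8 * E + 1)) := by
          refine add_le_add (by gcongr) (mul_le_mul hN2 ?_ (by positivity) zero_le_one)
          have := hNE.trans hNE2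
          gcongr
      _ = _ := by rw [one_mul]
  have hPE : 126 * P ≤ (126 * C / δ) ^ (8 * E + 1) := by
    have h1 : 1 ≤ 126 * C / δ := by
      rw [le_div_iff₀ hδ]
      linarith
    have h2 : C / δ ≤ 126 * C / δ := by
      rw [mul_div_assoc]
      linarith
    calc 126 * P ≤ (126 * C / δ) * (126 * C / δ) ^ E := by
          refine mul_le_mul ?_ (pow_le_pow_left₀ (by linarith) h2 E) (by linarith) (by linarith)
          rw [mul_div_assoc]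
          linarith
      _ = (126 * C / δ) ^ (E + 1) := by ring
      _ ≤ _ := pow_le_pow_right₀ h1 (by omega)
  have hlast : ((Om φ Y).card : ℝ) * (3 * D) ≤ 3 * (Y * (D * P)) := by
    calc ((Om φ Y).card : ℝ) * (3 * D) ≤ Y * (3 * D) :=
          mul_le_mul_of_nonneg_right hcard (by positivity)
      _ = 3 * (Y * (D * 1)) := by ring
      _ ≤ _ := by gcongr
  have hfin : Y * (D * (126 * P)) ≤ Y * (D * (126 * C / δ) ^ (8 * E + 1)) := by gcongr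
  have hCV : 0 ≤ C * V * (N : ℝ) ^ (8 * E + 1) := by positivity
  nlinarith [hA, hB, hlast, hfin, hCV]

end Pool.Agent.Y182.TQ
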