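import Mathlib
import Pool.Agent.Y122.TQ.Defs

/-! # Project TQ: size and summability of the main term series (helper182) -/

set_option autoImplicit false

namespace Pool.Agent.Y182.TQ

open Finset Filter Topology
open Pool.Agent.H306R2 Pool.Agent.Y746.OA
open Pool.Agent.H306R2.RZ (nu)
open Pool.Agent.Y122.TQ

theorem lc_two (K e : ℕ) : lc (K : ℝ) (2 * e) ≤ lc ((K ^ 2 : ℕ) : ℝ) e := by
  induction e with
  | zero => simp [lc_zero]
  | succ e ih =>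
    have e1 : 2 * (e + 1) = 2 * e + 1 + 1 := by ring
    rw [e1, lc_succ, lc_succ, lc_succ, mul_assoc]
    have hK : (0 : ℝ) ≤ K := Nat.cast_nonneg K
    have he : (0 : ℝ) ≤ e := Nat.cast_nonneg e
    have hKK : (0 : ℝ) ≤ (K : ℝ) * (K - 1) := by
      rcases Nat.eq_zero_or_pos K with h | h
      · subst h; simp
      · have : (1 : ℝ) ≤ K := by exact_mod_cast h
        exact mul_nonneg hK (by linarith)
    have h1 : ((K : ℝ) + ((2 * e : ℕ) : ℝ)) / (((2 * e : ℕ) : ℝ) + 1) *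
        (((K : ℝ) + ((2 * e + 1 : ℕ) : ℝ)) / (((2 * e + 1 : ℕ) : ℝ) + 1)) ≤
        (((K ^ 2 : ℕ) : ℝ) + e) / ((e : ℝ) + 1) := by
      push_cast
      rw [div_mul_div_comm, div_le_div_iff₀ (by positivity) (by positivity)]
      have h2 : ((K : ℝ) + 2 * e) * (K + (2 * e + 1)) ≤ 2 * (2 * e + 1) * ((K : ℝ) ^ 2 + e) := by
        nlinarith [mul_nonneg he hKK]
      have h3 : (0 : ℝ) ≤ (e : ℝ) + 1 := by positivity
      nlinarith [mul_le_mul_of_nonneg_right h2 h3]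
    refine mul_le_mul ih h1 (by positivity) (lc_nonneg (Nat.cast_nonneg _) _)

theorem dv_sq_arg (K m : ℕ) : dv (K : ℝ) (m ^ 2) ≤ dv ((K ^ 2 : ℕ) : ℝ) m := by
  rcases Nat.eq_zero_or_pos m with h | h
  · subst h
    simp [dv]
  · unfold dv
    rw [if_neg (by positivity), if_neg (by omega), Nat.factorization_pow]
    unfold Finsupp.prod
    rw [Nat.support_factorization, Finsupp.support_smul_eq (by norm_num : (2 : ℕ) ≠ 0),
      Nat.support_factorization]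
    refine Finset.prod_le_prod (fun p _ => lc_nonneg (Nat.cast_nonneg _) _) fun p _ => ?_
    rw [Finsupp.smul_apply, smul_eq_mul]
    exact lc_two K _

theorem part_le (K : ℕ) {δ : ℝ} (h0 : 0 < δ) (h1 : δ ≤ 1) (F : Finset ℕ) :
    ∑ m ∈ F, dv (K : ℝ) (m ^ 2) * (m : ℝ) ^ (-(1 + δ)) ≤ (2 / δ) ^ (K ^ 2) := by
  refine le_trans ?_ (dvJ_sum (K ^ 2) h0 h1 F)
  refine Finset.sum_le_sum fun m _ => ?_
  have e : -(1 + δ) = -1 - δ := by ring
  rw [e]
  exact mul_le_mul_of_nonneg_right (dv_sq_arg K m) (by positivity)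

theorem term_nonneg (K : ℕ) (δ : ℝ) (m : ℕ) : 0 ≤ dv (K : ℝ) (m ^ 2) * (m : ℝ) ^ (-(1 + δ)) :=
  mul_nonneg (dv_nonneg (Nat.cast_nonneg _) _) (by positivity)

theorem dv2_sum' (K : ℕ) {δ : ℝ} (h0 : 0 < δ) (h1 : δ ≤ 1) :
    Summable (fun m : ℕ => dv (K : ℝ) (m ^ 2) * (m : ℝ) ^ (-(1 + δ))) ∧
      ∑' m : ℕ, dv (K : ℝ) (m ^ 2) * (m : ℝ) ^ (-(1 + δ)) ≤ (2 / δ) ^ (K ^ 2) := by
  have hs : Summable (fun m : ℕ => dv (K : ℝ) (m ^ 2) * (m : ℝ) ^ (-(1 + δ))) :=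
    summable_of_sum_le (fun m => term_nonneg K δ m) (fun F => part_le K h0 h1 F)
  exact ⟨hs, hs.tsum_le_of_sum_le fun F => part_le K h0 h1 F⟩

theorem dv2_sum (K : ℕ) : ∃ (C : ℝ) (E : ℕ), 1 ≤ C ∧ ∀ δ : ℝ, 0 < δ → δ ≤ 1 →
    Summable (fun m : ℕ => dv (K : ℝ) (m ^ 2) * (m : ℝ) ^ (-(1 + δ))) ∧
      ∑' m : ℕ, dv (K : ℝ) (m ^ 2) * (m : ℝ) ^ (-(1 + δ)) ≤ (C / δ) ^ E :=
  ⟨2, K ^ 2, by norm_num, fun _ h0 h1 => dv2_sum' K h0 h1⟩

theorem nu_nonneg' (n : ℕ) : 0 ≤ nu n := by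
  unfold nu
  exact Finset.prod_nonneg fun p _ => by positivity

theorem nu_le_one' (n : ℕ) : nu n ≤ 1 := by
  unfold nu
  refine Finset.prod_le_one (fun p _ => by positivity) fun p _ => ?_
  rw [div_le_one (by positivity)]
  linarith

theorem MTB : S_MTB := by
  intro K
  refine ⟨2, K ^ 2, by norm_num, fun β hβ δ h0 h1 => ?_⟩
  obtain ⟨hs, hb⟩ := dv2_sum' K h0 h1
  have hterm : ∀ m : ℕ, ‖(if Odd m then dv β (m ^ 2) * nu m * (m : ℝ) ^ (-(1 + 2 * δ)) else 0)‖ ≤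
      dv (K : ℝ) (m ^ 2) * (m : ℝ) ^ (-(1 + δ)) := by
    intro m
    split_ifs with h
    · have hm : (1 : ℝ) ≤ m := by
        have : m ≠ 0 := by
          rintro rfl
          simp at h
        exact_mod_cast Nat.one_le_iff_ne_zero.2 this
      rw [norm_mul, norm_mul, Real.norm_eq_abs, Real.norm_eq_abs, Real.norm_eq_abs,
        abs_of_nonneg (nu_nonneg' m), abs_of_nonneg (by positivity : 0 ≤ (m : ℝ) ^ (-(1 + 2 * δ)))]
      have e1 : (m : ℝ) ^ (-(1 + 2 * δ)) ≤ (m : ℝ) ^ (-(1 + δ)) :=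
        Real.rpow_le_rpow_of_exponent_le hm (by linarith)
      have e2 : |dv β (m ^ 2)| ≤ dv (K : ℝ) (m ^ 2) := dv_abs_le hβ _
      have e3 : |dv β (m ^ 2)| * nu m ≤ dv (K : ℝ) (m ^ 2) := by
        calc |dv β (m ^ 2)| * nu m ≤ |dv β (m ^ 2)| * 1 :=
              mul_le_mul_of_nonneg_left (nu_le_one' m) (abs_nonneg _)
          _ ≤ _ := by rw [mul_one]; exact e2
      exact mul_le_mul e3 e1 (by positivity) (dv_nonneg (Nat.cast_nonneg _) _)
    · rw [norm_zero]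
      exact term_nonneg K δ m
  refine ⟨Summable.of_norm_bounded hs hterm, ?_⟩
  unfold MT
  have := tsum_of_norm_bounded hs.hasSum hterm
  rw [Real.norm_eq_abs] at this
  exact this.trans hb

end Pool.Agent.Y182.TQ
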